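import Mathlib
import Pool.Agent.W325.KZ.Defs

set_option autoImplicit false

open Finset MeasureTheory ProbabilityTheory Filter Topology

namespace Pool.Agent.W928.KZ

open Pool.Agent.W325.KZ

lemma iIndep_coord (D : ℕ) : iIndepFun (fun (i : Fin D) (a : ℕ → ℝ) => a i) ga := by
  unfold ga
  have h := iIndepFun_infinitePi (P := fun _ : ℕ => gaussianReal 0 1) (X := fun _ x => x)
    (by fun_prop)
  exact h.precomp Fin.val_injective

lemma coord_law (k : ℕ) : HasLaw (fun a : ℕ → ℝ => a k) (gaussianReal 0 1) ga := by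
  unfold ga
  exact (measurePreserving_eval_infinitePi (fun _ : ℕ => gaussianReal 0 1) k).hasLaw

lemma coord_gauss (k : ℕ) : HasGaussianLaw (fun a : ℕ → ℝ => a k) ga :=
  (coord_law k).hasGaussianLaw

lemma joint (D : ℕ) (c d : ℕ → ℝ) : HasGaussianLaw
    (fun a : ℕ → ℝ => (∑ k ∈ range D, a k * c k, ∑ k ∈ range D, a k * d k)) ga := by
  have h := iIndepFun.hasGaussianLaw (P := ga) (X := fun (i : Fin D) (a : ℕ → ℝ) => a i)
    (fun i => coord_gauss i) (iIndep_coord D)
  let L : (Fin D → ℝ) →L[ℝ] ℝ × ℝ :=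
    (∑ i : Fin D, (c i) • (ContinuousLinearMap.proj i : (Fin D → ℝ) →L[ℝ] ℝ)).prod
      (∑ i : Fin D, (d i) • (ContinuousLinearMap.proj i : (Fin D → ℝ) →L[ℝ] ℝ))
  have h2 := h.map_fun L
  have h3 : (fun a : ℕ → ℝ => (∑ k ∈ range D, a k * c k, ∑ k ∈ range D, a k * d k)) =
      fun a : ℕ → ℝ => L (fun i : Fin D => a i) := by
    funext a
    simp [L, Finset.sum_range, mul_comm]
  rw [h3]
  exact h2

lemma coord_memLp (k : ℕ) : MemLp (fun a : ℕ → ℝ => a k) 2 ga := (coord_gauss k).memLp_two

lemma cov_coord (i j : ℕ) : cov[fun a : ℕ → ℝ => a i, fun a => a j; ga] = if i = j then 1 else 0 := by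
  split_ifs with h
  · subst h
    rw [covariance_self (coord_law i).aemeasurable]
    rw [(coord_law i).variance_eq]
    simp
  · have hind : IndepFun (fun a : ℕ → ℝ => a i) (fun a => a j) ga := by
      unfold ga
      have h' := iIndepFun_infinitePi (P := fun _ : ℕ => gaussianReal 0 1) (X := fun _ x => x)
        (by fun_prop)
      exact h'.indepFun h
    exact hind.covariance_eq_zero (coord_memLp i) (coord_memLp j)

lemma cov_lin (D : ℕ) (c d : ℕ → ℝ) :
    cov[fun a : ℕ → ℝ => ∑ k ∈ range D, a k * c k, fun a => ∑ k ∈ range D, a k * d k; ga] =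
      ∑ k ∈ range D, c k * d k := by
  rw [covariance_fun_sum_fun_sum' (fun i _ => (coord_memLp i).mul_const _)
    (fun i _ => (coord_memLp i).mul_const _)]
  refine Finset.sum_congr rfl fun i hi => ?_
  rw [Finset.sum_eq_single i]
  · rw [covariance_mul_const_left, covariance_mul_const_right, cov_coord]
    simp [mul_comm]
  · intro j _ hj
    rw [covariance_mul_const_left, covariance_mul_const_right, cov_coord, if_neg (Ne.symm hj)]
    simp
  · intro h; exact absurd hi h

lemma mean_lin (D : ℕ) (c : ℕ → ℝ) :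
    ∫ a, ∑ k ∈ range D, a k * c k ∂ga = 0 := by
  rw [integral_finsetSum]
  · refine Finset.sum_eq_zero fun i _ => ?_
    rw [integral_mul_const, (coord_law i).integral_eq]
    simp
  · intro i _
    exact ((coord_memLp i).integrable (by norm_num)).mul_const _

lemma lin_law (D : ℕ) (c : ℕ → ℝ) :
    ga.map (fun a => ∑ k ∈ range D, a k * c k) =
      gaussianReal 0 (∑ k ∈ range D, c k ^ 2).toNNReal := by
  have h := (joint D c c).fst
  have h1 := h.map_eq_gaussianReal
  rw [h1, mean_lin]
  congr 2
  rw [← covariance_self h.aemeasurable, cov_lin]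
  simp [sq]

/-- small ball bound for a centred Gaussian -/
lemma gauss_interval (v : ℝ) (hv : 0 < v) (x β : ℝ) (hβ : 0 ≤ β) :
    gaussianReal 0 v.toNNReal (Set.Icc (x - β) (x + β)) ≤
      ENNReal.ofReal (2 * β / Real.sqrt (2 * Real.pi * v)) := by
  have hv' : v.toNNReal ≠ 0 := by
    simp only [ne_eq, Real.toNNReal_eq_zero, not_le]; exact hv
  rw [gaussianReal_apply 0 hv']
  have hb : ∀ y ∈ Set.Icc (x - β) (x + β), gaussianPDF 0 v.toNNReal y ≤
      ENNReal.ofReal (1 / Real.sqrt (2 * Real.pi * v)) := by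
    intro y _
    unfold gaussianPDF
    apply ENNReal.ofReal_le_ofReal
    unfold gaussianPDFReal
    rw [Real.coe_toNNReal v hv.le]
    have h1 : Real.exp (-(y - 0) ^ 2 / (2 * v)) ≤ 1 := by
      rw [Real.exp_le_one_iff]
      apply div_nonpos_of_nonpos_of_nonneg
      · nlinarith [sq_nonneg (y - 0)]
      · linarith
    have h2 : 0 ≤ (Real.sqrt (2 * Real.pi * v))⁻¹ := by positivity
    calc _ ≤ (Real.sqrt (2 * Real.pi * v))⁻¹ * 1 := mul_le_mul_of_nonneg_left h1 h2
      _ = _ := by rw [mul_one, one_div]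
  calc ∫⁻ y in Set.Icc (x - β) (x + β), gaussianPDF 0 v.toNNReal y
      ≤ ∫⁻ y in Set.Icc (x - β) (x + β), ENNReal.ofReal (1 / Real.sqrt (2 * Real.pi * v)) :=
        setLIntegral_mono' measurableSet_Icc hb
    _ = ENNReal.ofReal (1 / Real.sqrt (2 * Real.pi * v)) * ENNReal.ofReal (2 * β) := by
        rw [setLIntegral_const, Real.volume_Icc]
        congr 2; ring
    _ = _ := by
        rw [← ENNReal.ofReal_mul (by positivity)]
        congr 1; ring

theorem jd : S_JD := by
  intro D c d α β Δ hα hβ hΔ hle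
  set A := ∑ k ∈ range D, c k ^ 2 with hA
  set B := ∑ k ∈ range D, d k ^ 2 with hB
  set C := ∑ k ∈ range D, c k * d k with hC
  have hA0 : 0 ≤ A := Finset.sum_nonneg fun k _ => sq_nonneg _
  have hApos : 0 < A := by
    rcases hA0.lt_or_eq with h | h
    · exact h
    · exfalso
      rw [← h] at hle
      nlinarith [sq_nonneg C]
  set t := C / A with ht
  set e : ℕ → ℝ := fun k => d k - t * c k with he
  have hce : ∑ k ∈ range D, c k * e k = 0 := by
    have : ∑ k ∈ range D, c k * e k = C - t * A := by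
      rw [hC, hA, Finset.mul_sum, ← Finset.sum_sub_distrib]
      refine Finset.sum_congr rfl fun k _ => ?_
      simp only [he]; ring
    rw [this, ht]; field_simp; ring
  have hee : ∑ k ∈ range D, e k ^ 2 = (A * B - C ^ 2) / A := by
    have : ∑ k ∈ range D, e k ^ 2 = B - 2 * t * C + t ^ 2 * A := by
      rw [hB, hC, hA, Finset.mul_sum, Finset.mul_sum, ← Finset.sum_sub_distrib,
        ← Finset.sum_add_distrib]
      refine Finset.sum_congr rfl fun k _ => ?_
      simp only [he]; ring
    rw [this, ht]; field_simp; ring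
  set B' := (A * B - C ^ 2) / A with hB'
  have hB'pos : 0 < B' := div_pos (lt_of_lt_of_le hΔ hle) hApos
  set X : (ℕ → ℝ) → ℝ := fun a => ∑ k ∈ range D, a k * c k with hX
  set Y : (ℕ → ℝ) → ℝ := fun a => ∑ k ∈ range D, a k * e k with hY
  have hXY : HasGaussianLaw (fun a => (X a, Y a)) ga := joint D c e
  have hind : IndepFun X Y ga := by
    apply hXY.indepFun_of_covariance_eq_zero
    rw [hX, hY, cov_lin, hce]
  have hXm : Measurable X := by
    rw [hX]; fun_prop
  have hYm : Measurable Y := by
    rw [hY]; fun_prop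
  have hlaw : ga.map (fun a => (X a, Y a)) =
      (gaussianReal 0 A.toNNReal).prod (gaussianReal 0 B'.toNNReal) := by
    rw [(indepFun_iff_map_prod_eq_prod_map_map hXm.aemeasurable hYm.aemeasurable).1 hind]
    rw [hX, hY, lin_law, lin_law, hee]
  have hsum : ∀ a : ℕ → ℝ, ∑ k ∈ range D, a k * d k = Y a + t * X a := by
    intro a
    rw [hX, hY]
    simp only
    rw [Finset.mul_sum, ← Finset.sum_add_distrib]
    refine Finset.sum_congr rfl fun k _ => ?_
    simp only [he]; ring
  set E : Set (ℝ × ℝ) := {p | |p.1| ≤ α ∧ |p.2 + t * p.1| ≤ β} with hE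
  have hEm : MeasurableSet E := by
    rw [hE]
    have h1 : MeasurableSet {p : ℝ × ℝ | |p.1| ≤ α} :=
      measurableSet_le (measurable_fst.abs) measurable_const
    have h2 : MeasurableSet {p : ℝ × ℝ | |p.2 + t * p.1| ≤ β} :=
      measurableSet_le ((measurable_snd.add (measurable_fst.const_mul t)).abs) measurable_const
    exact h1.inter h2
  have hset : {a : ℕ → ℝ | |∑ k ∈ range D, a k * c k| ≤ α ∧ |∑ k ∈ range D, a k * d k| ≤ β} =
      (fun a => (X a, Y a)) ⁻¹' E := by
    ext a
    simp only [Set.mem_ofPred_eq, Set.mem_preimage, hE]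
    rw [hsum a]
  rw [hset, ← Measure.map_apply (hXm.prodMk hYm) hEm, hlaw, Measure.prod_apply hEm]
  calc ∫⁻ x, gaussianReal 0 B'.toNNReal (Prod.mk x ⁻¹' E) ∂(gaussianReal 0 A.toNNReal)
      ≤ ∫⁻ x, (Set.Icc (-α) α).indicator
          (fun _ => ENNReal.ofReal (2 * β / Real.sqrt (2 * Real.pi * B'))) x
            ∂(gaussianReal 0 A.toNNReal) := by
        refine lintegral_mono fun x => ?_
        by_cases hx : x ∈ Set.Icc (-α) α
        · rw [Set.indicator_of_mem hx]
          refine le_trans (measure_mono ?_) (gauss_interval B' hB'pos (-(t * x)) β hβ)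
          intro y hy
          simp only [hE, Set.mem_preimage, Set.mem_ofPred_eq] at hy
          have := abs_le.1 hy.2
          constructor <;> linarith [this.1, this.2]
        · rw [Set.indicator_of_notMem hx]
          have : Prod.mk x ⁻¹' E = ∅ := by
            ext y
            simp only [hE, Set.mem_preimage, Set.mem_ofPred_eq, Set.mem_empty_iff_false, iff_false,
              not_and]
            intro h
            exact absurd (abs_le.1 h) hx
          rw [this]; simp
    _ = ENNReal.ofReal (2 * β / Real.sqrt (2 * Real.pi * B')) *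
          gaussianReal 0 A.toNNReal (Set.Icc (-α) α) := by
        rw [lintegral_indicator measurableSet_Icc, setLIntegral_const]
    _ ≤ ENNReal.ofReal (2 * β / Real.sqrt (2 * Real.pi * B')) *
          ENNReal.ofReal (2 * α / Real.sqrt (2 * Real.pi * A)) := by
        gcongr
        have := gauss_interval A hApos 0 α hα
        simpa using this
    _ = ENNReal.ofReal (2 * β / Real.sqrt (2 * Real.pi * B') *
          (2 * α / Real.sqrt (2 * Real.pi * A))) := by
        rw [ENNReal.ofReal_mul (by positivity)]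
    _ ≤ ENNReal.ofReal (α * β / Real.sqrt Δ) := by
        apply ENNReal.ofReal_le_ofReal
        have h1 : 2 * β / Real.sqrt (2 * Real.pi * B') * (2 * α / Real.sqrt (2 * Real.pi * A)) =
            (α * β) * (4 / (Real.sqrt (2 * Real.pi * B') * Real.sqrt (2 * Real.pi * A))) := by
          rw [div_mul_div_comm]; ring
        rw [h1, div_eq_mul_one_div (α * β)]
        apply mul_le_mul_of_nonneg_left _ (mul_nonneg hα hβ)
        rw [← Real.sqrt_mul (by positivity), div_le_div_iff₀ (by positivity) (by positivity),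
          one_mul]
        have h2 : 2 * Real.pi * B' * (2 * Real.pi * A) = (2 * Real.pi) ^ 2 * (A * B - C ^ 2) := by
          rw [hB']; field_simp
        rw [h2, Real.sqrt_mul (by positivity), Real.sqrt_sq (by positivity)]
        have h3 : Real.sqrt Δ ≤ Real.sqrt (A * B - C ^ 2) := Real.sqrt_le_sqrt hle
        have h4 : (4 : ℝ) ≤ 2 * Real.pi := by linarith [Real.pi_gt_three]
        exact mul_le_mul h4 h3 (Real.sqrt_nonneg _) (by positivity)

end Pool.Agent.W928.KZ
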